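import Pool.Agent.R627.AC.Stm

set_option autoImplicit false

namespace Pool.Agent.R627.AC

open Metric Filter Topology PowerSeries Pool.Agent.R194.Baz

namespace R0Pf

theorem s_abs {α : ℝ} (hα : 0 < α) (k : ℕ) : |s α k| ≤ 1 := by
  unfold s
  rw [Finset.abs_prod]
  apply Finset.prod_le_one
  · intro i _; exact abs_nonneg _
  · intro i _
    have h1 : 0 < α * ((i:ℝ) + 1) := by positivity
    have h2 : 0 < α * ((i:ℝ) + 1) + 1 := by linarith
    rw [abs_div, abs_of_pos h2, div_le_one h2, abs_le]
    constructor <;> linarith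

theorem s_zero (α : ℝ) : s α 0 = 1 := by simp [s]

theorem s_succ {α : ℝ} (hα : 0 < α) (k : ℕ) :
    s α (k + 1) * (α * (k + 1) + 1) = s α k * (α * (k + 1) - 1) := by
  unfold s
  rw [Finset.prod_range_succ]
  have h1 : α * ((k:ℝ) + 1) + 1 ≠ 0 := by positivity
  field_simp

/-- the power series -/
noncomputable def ps (α : ℝ) : FormalMultilinearSeries ℂ ℂ ℂ :=
  FormalMultilinearSeries.ofScalars ℂ (fun k => (s α k : ℂ))

theorem rad {α : ℝ} (hα : 0 < α) : 1 ≤ (ps α).radius := by
  have h := (ps α).le_radius_of_bound 1 (r := 1) (by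
    intro n
    unfold ps
    rw [FormalMultilinearSeries.ofScalars_norm]
    simp only [NNReal.coe_one, one_pow, mul_one, Complex.norm_real, Real.norm_eq_abs]
    exact s_abs hα n)
  simpa using h

theorem rho_eq (α : ℝ) : rho α = (ps α).sum := by
  funext z
  unfold rho ps
  have h := FormalMultilinearSeries.ofScalars_sum_eq (E := ℂ) (fun k => (s α k : ℂ)) z
  rw [FormalMultilinearSeries.ofScalarsSum] at h
  rw [h]
  simp only [smul_eq_mul]

theorem fps {α : ℝ} (hα : 0 < α) : HasFPowerSeriesOnBall (rho α) (ps α) 0 (ps α).radius := by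
  rw [rho_eq]
  exact (ps α).hasFPowerSeriesOnBall (lt_of_lt_of_le one_pos (rad hα))

theorem an_rho {α : ℝ} (hα : 0 < α) : An (rho α) := by
  refine (fps hα).differentiableOn.mono ?_
  intro z hz
  rw [mem_ball_zero_iff] at hz
  rw [Metric.mem_eball, edist_zero_right]
  refine lt_of_lt_of_le ?_ (rad hα)
  rw [← ofReal_norm]
  exact ENNReal.ofReal_lt_one.2 hz

theorem tay_rho {α : ℝ} (hα : 0 < α) : tay (rho α) = PowerSeries.mk (fun k => (s α k : ℂ)) := by
  ext n
  rw [coeff_tay, coeff_mk]
  have h1 := (fps hα).hasFPowerSeriesAt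
  have h2 := (fps hα).analyticAt.hasFPowerSeriesAt
  have h3 := h2.eq_formalMultilinearSeries h1
  have h4 := congrArg (fun q => FormalMultilinearSeries.coeff q n) h3
  simpa [ps, FormalMultilinearSeries.coeff_ofScalars] using h4

theorem ser {α : ℝ} (hα : 0 < α) (S : PowerSeries ℂ)
    (hS : S = PowerSeries.mk (fun k => (s α k : ℂ))) :
    (PowerSeries.C (α:ℂ) * (X * derivative ℂ S) + PowerSeries.C (-(α:ℂ)) * (X * (X * derivative ℂ S)))
      + (PowerSeries.C (-(α:ℂ)) * (X * S) + (S + X * S)) = PowerSeries.C 1 := by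
  have hc : ∀ k, coeff k S = (s α k : ℂ) := by intro k; rw [hS, coeff_mk]
  ext n
  rw [map_add, map_add, map_add, map_add, coeff_C_mul, coeff_C_mul, coeff_C_mul]
  rcases n with _ | n
  · rw [coeff_zero_X_mul, coeff_zero_X_mul, coeff_zero_X_mul, hc, s_zero]
    simp
  · rw [coeff_succ_X_mul, coeff_succ_X_mul, coeff_succ_X_mul, coeff_derivative, hc, hc, coeff_C,
      if_neg (Nat.succ_ne_zero n)]
    have h1 : coeff n (X * derivative ℂ S) = (n:ℂ) * (s α n : ℂ) := by
      rcases n with _ | n
      · rw [coeff_zero_X_mul]; simp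
      · rw [coeff_succ_X_mul, coeff_derivative, hc]
        push_cast; ring
    rw [h1]
    have h2 := s_succ hα n
    have h3 : (s α (n + 1) : ℂ) * ((α:ℂ) * (n + 1) + 1) = (s α n : ℂ) * ((α:ℂ) * (n + 1) - 1) := by
      exact_mod_cast h2
    linear_combination h3

theorem ode {α : ℝ} (hα : 0 < α) : ∀ z ∈ ball (0:ℂ) 1,
    ((α:ℂ) * (z * deriv (rho α) z) + (-(α:ℂ)) * (z * (z * deriv (rho α) z))) +
      ((-(α:ℂ)) * (z * rho α z) + (rho α z + z * rho α z)) = 1 := by
  have hr := an_rho hα
  have hd : DifferentiableOn ℂ (deriv (rho α)) (ball (0:ℂ) 1) := hr.deriv isOpen_ball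
  have hid : DifferentiableOn ℂ (fun z : ℂ => z) (ball (0:ℂ) 1) := differentiableOn_id
  have h0 : ball (0:ℂ) 1 ∈ 𝓝 (0:ℂ) := ball_mem_nhds _ one_pos
  have ar : AnalyticAt ℂ (rho α) 0 := hr.analyticAt h0
  have ad : AnalyticAt ℂ (deriv (rho α)) 0 := hd.analyticAt h0
  have ai : AnalyticAt ℂ (fun z : ℂ => z) 0 := analyticAt_id
  refine tay_inj (f := fun z => ((α:ℂ) * (z * deriv (rho α) z) +
    (-(α:ℂ)) * (z * (z * deriv (rho α) z))) +
      ((-(α:ℂ)) * (z * rho α z) + (rho α z + z * rho α z))) (g := fun _ => 1) ?_ ?_ ?_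
  · exact (((hid.mul hd).const_mul _).add ((hid.mul (hid.mul hd)).const_mul _)).add
      (((hid.mul hr).const_mul _).add (hr.add (hid.mul hr)))
  · exact differentiableOn_const _
  · have a1 : AnalyticAt ℂ (fun z => z * deriv (rho α) z) 0 := ai.mul ad
    have a2 : AnalyticAt ℂ (fun z => z * (z * deriv (rho α) z)) 0 := ai.mul a1
    have a3 : AnalyticAt ℂ (fun z => z * rho α z) 0 := ai.mul ar
    have t1 : tay (fun z => z * deriv (rho α) z) = X * derivative ℂ (tay (rho α)) := by
      rw [tay_mul (f := fun z => z) ai ad, tay_id, tay_deriv]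
    have t2 : tay (fun z => z * (z * deriv (rho α) z)) = X * (X * derivative ℂ (tay (rho α))) := by
      rw [tay_mul (f := fun z => z) (g := fun z => z * deriv (rho α) z) ai a1, tay_id, t1]
    have t3 : tay (fun z => z * rho α z) = X * tay (rho α) := by
      rw [tay_mul (f := fun z => z) ai ar, tay_id]
    rw [tay_add (f := fun z => (α:ℂ) * (z * deriv (rho α) z) +
        (-(α:ℂ)) * (z * (z * deriv (rho α) z)))
        (g := fun z => (-(α:ℂ)) * (z * rho α z) + (rho α z + z * rho α z))
        ((analyticAt_const.mul a1).add (analyticAt_const.mul a2))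
        ((analyticAt_const.mul a3).add (ar.add a3)),
      tay_add (f := fun z => (α:ℂ) * (z * deriv (rho α) z))
        (g := fun z => (-(α:ℂ)) * (z * (z * deriv (rho α) z)))
        (analyticAt_const.mul a1) (analyticAt_const.mul a2),
      tay_add (f := fun z => (-(α:ℂ)) * (z * rho α z)) (g := fun z => rho α z + z * rho α z)
        (analyticAt_const.mul a3) (ar.add a3),
      tay_add (f := rho α) (g := fun z => z * rho α z) ar a3,
      tay_const_mul (f := fun z => z * deriv (rho α) z) _ a1,
      tay_const_mul (f := fun z => z * (z * deriv (rho α) z)) _ a2,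
      tay_const_mul (f := fun z => z * rho α z) _ a3, t1, t2, t3, tay_const]
    exact ser hα _ (tay_rho hα)

end R0Pf

open R0Pf in
theorem r0_facts : StR0 := by
  intro α hα
  have hr := an_rho hα
  have hR : An (R0 α) := by
    have h1 : DifferentiableOn ℂ (fun z : ℂ => 1 - z) (ball (0:ℂ) 1) := by fun_prop
    exact h1.mul hr
  refine ⟨hR, ?_, ?_⟩
  · have h1 := ode hα 0 (mem_ball_self one_pos)
    unfold R0
    simpa using h1
  · intro z hz
    have hz1 : (1:ℂ) - z ≠ 0 := by
      intro h
      have : z = 1 := by linear_combination -h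
      rw [this, mem_ball_zero_iff] at hz
      simp at hz
    have hd : HasDerivAt (rho α) (deriv (rho α) z) z :=
      (hr.differentiableAt (isOpen_ball.mem_nhds hz)).hasDerivAt
    have h1 : HasDerivAt (fun z : ℂ => 1 - z) (-1) z := by
      simpa using (hasDerivAt_id z).const_sub 1
    have h2 : HasDerivAt (R0 α) (-1 * rho α z + (1 - z) * deriv (rho α) z) z := h1.mul hd
    rw [h2.deriv]
    have h3 := ode hα z hz
    have h4 : (1 + z) / (1 - z) * R0 α z = (1 + z) * rho α z := by
      unfold R0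
      field_simp
    rw [h4]
    linear_combination h3

end Pool.Agent.R627.AC
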