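import Pool.Agent.R627.AC.Stm

set_option autoImplicit false

namespace Pool.Agent.R627.AC

open Metric Filter Topology

theorem re_pos : StRePos := by
  intro α R p hα hR hR0 hp hode z1 hz1
  by_contra hneg
  push Not at hneg
  have hz1' : ‖z1‖ < 1 := mem_ball_zero_iff.1 hz1
  have hsub : closedBall (0:ℂ) ‖z1‖ ⊆ ball (0:ℂ) 1 := closedBall_subset_ball hz1'
  have hcont : ContinuousOn (fun z => (R z).re) (closedBall (0:ℂ) ‖z1‖) :=
    Complex.continuous_re.comp_continuousOn (hR.continuousOn.mono hsub)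
  have hK : IsCompact (closedBall (0:ℂ) ‖z1‖ ∩ (fun z => (R z).re) ⁻¹' Set.Iic 0) :=
    (isCompact_closedBall (0:ℂ) ‖z1‖).of_isClosed_subset
      (hcont.preimage_isClosed_of_isClosed isClosed_closedBall isClosed_Iic)
      Set.inter_subset_left
  obtain ⟨z0, hz0, hmin⟩ := hK.exists_isMinOn
    ⟨z1, mem_closedBall_zero_iff.2 le_rfl, hneg⟩ (continuous_norm.continuousOn)
  have hz0b : ‖z0‖ ≤ ‖z1‖ := mem_closedBall_zero_iff.1 hz0.1
  have hz0c : (R z0).re ≤ 0 := hz0.2
  have hpos : ∀ z : ℂ, ‖z‖ < ‖z0‖ → 0 < (R z).re := by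
    intro z hz
    by_contra h
    push Not at h
    have h1 := hmin (a := z) ⟨mem_closedBall_zero_iff.2 (le_trans hz.le hz0b), h⟩
    have h2 : ‖z0‖ ≤ ‖z‖ := h1
    linarith
  have hz0ne : z0 ≠ 0 := by
    intro h
    rw [h, hR0] at hz0c
    norm_num at hz0c
  have hn0 : 0 < ‖z0‖ := norm_pos_iff.2 hz0ne
  have hn1 : ‖z0‖ < 1 := lt_of_le_of_lt hz0b hz1'
  have hz0ball : z0 ∈ ball (0:ℂ) 1 := mem_ball_zero_iff.2 hn1
  have hnn : ∀ z : ℂ, ‖z‖ ≤ ‖z0‖ → 0 ≤ (R z).re := by
    intro z hz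
    have hzb : z ∈ ball (0:ℂ) 1 := mem_ball_zero_iff.2 (lt_of_le_of_lt hz hn1)
    have hc : ContinuousAt (fun t : ℝ => (R ((t:ℂ) * z)).re) 1 := by
      have h1 : ContinuousAt R (((1:ℝ):ℂ) * z) := by
        rw [Complex.ofReal_one, one_mul]
        exact (hR.differentiableAt (isOpen_ball.mem_nhds hzb)).continuousAt
      have h2 : ContinuousAt (fun t : ℝ => (t:ℂ) * z) 1 := by fun_prop
      exact Complex.continuous_re.continuousAt.comp (h1.comp (f := fun t : ℝ => (t:ℂ) * z) h2)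
    have h3 : Tendsto (fun t : ℝ => (R ((t:ℂ) * z)).re) (𝓝[<] 1) (𝓝 (R z).re) := by
      have h4 := hc.tendsto
      simp only [Complex.ofReal_one, one_mul] at h4
      exact h4.mono_left nhdsWithin_le_nhds
    refine ge_of_tendsto h3 ?_
    have h5 : ∀ᶠ t : ℝ in 𝓝[<] 1, t ∈ Set.Ioo (0:ℝ) 1 := Ioo_mem_nhdsLT (by norm_num)
    filter_upwards [h5] with t ht
    rcases eq_or_ne z 0 with rfl | hzne
    · rw [mul_zero, hR0]; norm_num
    · refine (hpos _ ?_).le
      rw [norm_mul, Complex.norm_real, Real.norm_eq_abs, abs_of_pos ht.1]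
      have hzp : 0 < ‖z‖ := norm_pos_iff.2 hzne
      nlinarith [ht.2]
  have hre0 : (R z0).re = 0 := le_antisymm hz0c (hnn z0 le_rfl)
  have hd : HasDerivAt R (deriv R z0) z0 :=
    (hR.differentiableAt (isOpen_ball.mem_nhds hz0ball)).hasDerivAt
  -- angular derivative
  have hang : (deriv R z0 * (z0 * Complex.I)).re = 0 := by
    have hc : HasDerivAt (fun θ : ℝ => z0 * Complex.exp ((θ:ℂ) * Complex.I)) (z0 * Complex.I) 0 := by
      have h1 : HasDerivAt (fun θ : ℝ => ((θ:ℂ) * Complex.I)) (1 * Complex.I) 0 :=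
        (Complex.ofRealCLM.hasDerivAt (x := (0:ℝ))).mul_const Complex.I
      have h2 := (h1.cexp).const_mul z0
      simpa using h2
    have hd' : HasDerivAt R (deriv R z0) ((fun θ : ℝ => z0 * Complex.exp ((θ:ℂ) * Complex.I)) 0) := by
      simpa using hd
    have h3 := hd'.comp (0:ℝ) hc
    have h4 := Complex.reCLM.hasFDerivAt.comp_hasDerivAt (0:ℝ) h3
    have hmin2 : IsLocalMin (⇑Complex.reCLM ∘ (R ∘ fun θ : ℝ => z0 * Complex.exp ((θ:ℂ) * Complex.I))) 0 := by
      refine Eventually.of_forall fun θ => ?_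
      show (R (z0 * Complex.exp (((0:ℝ):ℂ) * Complex.I))).re ≤
        (R (z0 * Complex.exp ((θ:ℂ) * Complex.I))).re
      rw [Complex.ofReal_zero, zero_mul, Complex.exp_zero, mul_one, hre0]
      apply hnn
      rw [norm_mul, Complex.norm_exp_ofReal_mul_I, mul_one]
    have h5 := hmin2.hasDerivAt_eq_zero h4
    simpa using h5
  -- radial derivative
  have hrad : (deriv R z0 * z0).re ≤ 0 := by
    have hc : HasDerivAt (fun t : ℝ => (t:ℂ) * z0) z0 1 := by
      have h1 := (Complex.ofRealCLM.hasDerivAt (x := (1:ℝ))).mul_const z0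
      simpa using h1
    have hd' : HasDerivAt R (deriv R z0) ((fun t : ℝ => (t:ℂ) * z0) 1) := by
      simpa using hd
    have h3 := hd'.comp (1:ℝ) hc
    have h4 := Complex.reCLM.hasFDerivAt.comp_hasDerivAt (1:ℝ) h3
    rw [hasDerivAt_iff_tendsto_slope] at h4
    have h5 : Tendsto (slope (⇑Complex.reCLM ∘ (R ∘ fun t : ℝ => (t:ℂ) * z0)) 1) (𝓝[<] 1)
        (𝓝 (Complex.reCLM (deriv R z0 * z0))) :=
      h4.mono_left (nhdsWithin_mono _ (fun x hx => ne_of_lt hx))
    have h6 : Complex.reCLM (deriv R z0 * z0) ≤ 0 := by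
      refine le_of_tendsto h5 ?_
      have h7 : ∀ᶠ t : ℝ in 𝓝[<] 1, t ∈ Set.Ioo (0:ℝ) 1 := Ioo_mem_nhdsLT (by norm_num)
      filter_upwards [h7] with t ht
      rw [slope_def_field]
      have e1 : (⇑Complex.reCLM ∘ (R ∘ fun t : ℝ => (t:ℂ) * z0)) 1 = 0 := by
        show (R (((1:ℝ):ℂ) * z0)).re = 0
        rw [Complex.ofReal_one, one_mul, hre0]
      have e2 : 0 ≤ (⇑Complex.reCLM ∘ (R ∘ fun t : ℝ => (t:ℂ) * z0)) t := by
        show 0 ≤ (R ((t:ℂ) * z0)).re
        apply hnn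
        rw [norm_mul, Complex.norm_real, Real.norm_eq_abs, abs_of_pos ht.1]
        nlinarith [ht.2]
      rw [e1, sub_zero]
      exact div_nonpos_of_nonneg_of_nonpos e2 (by linarith [ht.2])
    exact h6
  have heq := hode z0 hz0ball
  have hp0 := hp z0 hz0ball
  set w := deriv R z0 * z0 with hw
  have hw1 : w.im = 0 := by
    have : deriv R z0 * (z0 * Complex.I) = w * Complex.I := by rw [hw]; ring
    rw [this] at hang
    simpa using hang
  have heq2 : (α:ℂ) * w + p z0 * R z0 = 1 := by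
    rw [← heq, hw]; ring
  have him := congrArg Complex.im heq2
  have hre := congrArg Complex.re heq2
  simp only [Complex.add_im, Complex.mul_im, Complex.ofReal_re, Complex.ofReal_im, hw1, hre0,
    Complex.one_im, mul_zero, zero_mul, add_zero, zero_add] at him
  simp only [Complex.add_re, Complex.mul_re, Complex.ofReal_re, Complex.ofReal_im, hw1, hre0,
    Complex.one_re, mul_zero, zero_mul, sub_zero, zero_sub] at hre
  have hy : (R z0).im = 0 := by
    rcases mul_eq_zero.1 him with h | h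
    · linarith
    · exact h
  rw [hy] at hre
  have : α * w.re ≤ 0 := mul_nonpos_of_nonneg_of_nonpos hα.le hrad
  linarith

end Pool.Agent.R627.AC
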